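import Mathlib
import Pool.Agent.H241Z.BT.Defs
import Pool.Agent.H241Z.BT.Lower

namespace Pool.Agent.Results.MP_a68a03_ag.ADimType

open Pool.Agent.H241Z.BT

/-- Boguslavsky's conjecture on dim-types: over a finite field with `q > d` elements, the
lexicographically largest dim-type of a common zero set in `ℙ^m` of `r` linearly independent forms
of degree `d` is `(ν₁, …, ν_m)`, where `ν` is the `r`-th element of `Λ(d,m)`. -/
theorem result (k : Type) [Field k] [Finite k] (m d r : ℕ) (hq : d < Nat.card k)
    (h1 : 1 ≤ r) (h2 : r ≤ (m + d).choose d) :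
    IsGreatest ((fun F => toLex (dimType F)) '' Fam k m d r)
      (toLex fun i : Fin m => nu d m r i.castSucc) :=
  dimType_isGreatest k m d r hq h1 h2

end Pool.Agent.Results.MP_a68a03_ag.ADimType
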